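import Pool.Agent.KK.StmtsB2

/-! Block B, row RUN: the runs of present types. -/

set_option autoImplicit false

namespace Pool.Agent.KK.B.H6

theorem end_run {F : Finset ℕ} {k m : ℕ} (hm : m ≤ k) (hmF : m ∉ F) :
    ∃ b, m ≤ b ∧ b ≤ k ∧ (∀ t, m ≤ t → t ≤ b → t ∉ F) ∧ (b = k ∨ b + 1 ∈ F) := by
  classical
  have hex : ∃ t, m ≤ t ∧ (t = k ∨ t + 1 ∈ F) := ⟨k, hm, Or.inl rfl⟩
  refine ⟨Nat.find hex, (Nat.find_spec hex).1, Nat.find_min' hex ⟨hm, Or.inl rfl⟩, ?_,
    (Nat.find_spec hex).2⟩
  intro t h1 h2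
  rcases Nat.eq_or_lt_of_le h1 with h | h
  · rw [← h]
    exact hmF
  · have h3 := Nat.find_min hex (m := t - 1) (by omega)
    intro h4
    apply h3
    refine ⟨by omega, Or.inr ?_⟩
    have : t - 1 + 1 = t := by omega
    rw [this]
    exact h4

theorem run_list {F : Finset ℕ} {k : ℕ} (hF : ∀ j ∈ F, j + 1 ∉ F) :
    ∀ n m : ℕ, k - m = n → m ≤ k → m ∉ F →
    ∃ (q : ℕ) (a b : ℕ → ℕ), 0 < q ∧ a 0 = m ∧
      (∀ i < q, a i ≤ b i ∧ b i ≤ k ∧ ∀ j, a i ≤ j → j ≤ b i → j ∉ F) ∧
      (∀ i, i + 1 < q → a (i + 1) = b i + 2) ∧ k - 1 ≤ b (q - 1) ∧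
      (∀ j, m ≤ j → j ≤ k → (∀ i < q, ¬ (a i ≤ j ∧ j ≤ b i)) → j ∈ F) := by
  intro n
  induction n using Nat.strong_induction_on with
  | _ n ih =>
    intro m hn hm hmF
    obtain ⟨e, he1, he2, he3, he4⟩ := end_run hm hmF
    by_cases hek : e + 2 ≤ k
    · have heF : e + 1 ∈ F := by
        rcases he4 with h | h
        · omega
        · exact h
      obtain ⟨q, a, b, h1, h2, h3, h4, h5, h6⟩ := ih (k - (e + 2)) (by omega) (e + 2) rfl hek
        (hF _ heF)
      refine ⟨q + 1, fun i => if i = 0 then m else a (i - 1),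
        fun i => if i = 0 then e else b (i - 1), by omega, by simp, ?_, ?_, ?_, ?_⟩
      · intro i hi
        rcases Nat.eq_zero_or_pos i with h | h
        · simp only [h, if_true]
          exact ⟨he1, he2, he3⟩
        · have hne : i ≠ 0 := by omega
          simp only [if_neg hne]
          exact h3 _ (by omega)
      · intro i hi
        rcases Nat.eq_zero_or_pos i with h | h
        · simp [h, h2]
        · have hne : i ≠ 0 := by omega
          have hne' : i + 1 ≠ 0 := by omega
          simp only [if_neg hne, if_neg hne']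
          have h7 := h4 (i - 1) (by omega)
          have h8 : i - 1 + 1 = i + 1 - 1 := by omega
          rw [h8] at h7
          exact h7
      · have hne : q + 1 - 1 ≠ 0 := by omega
        simp only [if_neg hne]
        exact h5
      · intro j hj1 hj2 hcon
        by_cases hje : j ≤ e
        · exact absurd ⟨by simpa using hj1, by simpa using hje⟩ (hcon 0 (by omega))
        · by_cases hj : j = e + 1
          · rw [hj]
            exact heF
          · apply h6 j (by omega) hj2
            intro i hi h7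
            apply hcon (i + 1) (by omega)
            simpa using h7
    · refine ⟨1, fun _ => m, fun _ => e, by omega, rfl, fun _ _ => ⟨he1, he2, he3⟩, ?_,
        (show k - 1 ≤ e by omega), ?_⟩
      · intro i hi
        omega
      · intro j hj1 hj2 hcon
        have h1 : ¬ j ≤ e := fun h => hcon 0 (by omega) ⟨hj1, h⟩
        have h2 : j = e + 1 := by omega
        rw [h2]
        rcases he4 with h | h
        · omega
        · exact h

theorem run : RunStmt := by
  intro k F hk hFk hF hex
  classical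
  obtain ⟨m, hm, hm1, hmF, hm0⟩ : ∃ m, m ≤ k ∧ m ≤ 1 ∧ m ∉ F ∧ ∀ j, j < m → j ∈ F := by
    by_cases h0 : 0 ∈ F
    · refine ⟨1, by omega, le_rfl, hF 0 h0, ?_⟩
      intro j hj
      have : j = 0 := by omega
      rw [this]
      exact h0
    · exact ⟨0, Nat.zero_le _, by omega, h0, fun j hj => by omega⟩
  obtain ⟨q, a, b, h1, h2, h3, h4, h5, h6⟩ := run_list hF (k - m) m rfl hm hmF
  have hq : 2 ≤ q := by
    by_contra hq
    have hq1 : q = 1 := by omega
    obtain ⟨j, hj, hj1, hj2⟩ := hex
    rw [hq1] at h5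
    exact (h3 0 h1).2.2 j (by omega) (by
      have : b (1 - 1) = b 0 := rfl
      omega) hj
  refine ⟨q, a, b, hq, by omega, fun i hi => (h3 i hi).1, h4, h5, (h3 (q - 1) (by omega)).2.1,
    ?_, fun i hi => (h3 i hi).2⟩
  intro j hj hcon
  by_cases hjm : j < m
  · exact hm0 j hjm
  · exact h6 j (by omega) hj hcon

end Pool.Agent.KK.B.H6
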