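import Pool.Agent.KK.StmtsC

/-! Block C, row COV: the covering theorem. -/

set_option autoImplicit false

namespace Pool.Agent.KK.H6

section lists

variable {V : Type}

theorem win {N k m : ℕ} (g : Fin N → V) (h : m + k ≤ N) :
    ((List.ofFn g).drop m).take k = List.ofFn (fun i : Fin k => g ⟨m + i, by omega⟩) := by
  apply List.ext_getElem
  · simp
    omega
  · intro i h1 h2
    simp

theorem infix_win {l L : List V} (h : l <:+: L) :
    ∃ m, m + l.length ≤ L.length ∧ l = (L.drop m).take l.length := by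
  obtain ⟨s, t, hst⟩ := h
  refine ⟨s.length, ?_, ?_⟩
  · rw [← hst]
    simp
  · rw [← hst, List.append_assoc, List.drop_left, List.take_left]

theorem mod_surj {k : ℕ} (hk : 0 < k) (m : ℕ) (j : Fin k) : ∃ i : Fin k, (m + i) % k = j := by
  refine ⟨⟨(j + (k - m % k)) % k, Nat.mod_lt _ hk⟩, ?_⟩
  have h1 : m % k < k := Nat.mod_lt _ hk
  have h2 : m = k * (m / k) + m % k := (Nat.div_add_mod m k).symm
  change (m + (j + (k - m % k)) % k) % k = j
  rw [Nat.add_mod_mod]
  have h3 : m + (j + (k - m % k)) = j + k * (m / k + 1) := by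
    have h4 : k * (m / k + 1) = k * (m / k) + k := by ring
    omega
  rw [h3, Nat.add_mul_mod_self_left, Nat.mod_eq_of_lt j.2]

end lists

variable {V : Type} [Fintype V] [DecidableEq V]

/-- a block is the vertex set of a segment -/
theorem block_seg {q : ℕ} {H : Finset (Finset V)} {k : ℕ} {T : Fin q → Set (List V)} {s : ℕ}
    (hk : 3 ≤ k) (hs : 0 < s) {B : Fin k → Finset V} (hB : Block H k T s B) :
    ∃ p : List V, (∀ v, v ∈ p ↔ ∃ j, v ∈ B j) ∧ p.length = s * k ∧
      ∃ i, Seg H k (T i) (T i) p := by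
  obtain ⟨hc, hd, i₀, hi⟩ := hB
  have hk0 : 0 < k := by omega
  have hks : k ≤ s * k := Nat.le_mul_of_pos_left k hs
  let e : ∀ j, Fin s ≃ B j := fun j => ((B j).equivFinOfCardEq (hc j)).symm
  let g : Fin (s * k) → V := fun m => (e m.modNat m.divNat : V)
  have hgB : ∀ m : Fin (s * k), ∀ j : Fin k, (m : ℕ) % k = j → g m ∈ B j := by
    intro m j hj
    have h1 : m.modNat = j := Fin.ext hj
    rw [← h1]
    exact (e m.modNat m.divNat).2
  have hinj : Function.Injective g := by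
    intro m m' hm
    have h1 : m.modNat = m'.modNat := by
      by_contra hne
      have h2 := Finset.disjoint_left.1 (hd _ _ hne) (hgB m m.modNat rfl)
      apply h2
      rw [hm]
      exact hgB m' m'.modNat rfl
    have h2 : m.divNat = m'.divNat := by
      have h3 : (e m.modNat m.divNat : V) = (e m'.modNat m'.divNat : V) := hm
      rw [h1] at h3
      exact (e m'.modNat).injective (Subtype.ext h3)
    apply (finProdFinEquiv (m := s) (n := k)).symm.injective
    exact Prod.ext h2 h1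
  have hwin : ∀ m, (hm : m + k ≤ s * k) →
      ∃ x : Fin k → V, (∀ j, x j ∈ B j) ∧
        ∀ j, ∃ i : Fin k, x j = g ⟨m + i, by omega⟩ := by
    intro m hm
    have h1 : ∀ j : Fin k, ∃ i : Fin k, (m + i) % k = j := mod_surj hk0 m
    choose i hi' using h1
    exact ⟨fun j => g ⟨m + i j, by have := (i j).2; omega⟩, fun j => hgB _ j (hi' j),
      fun j => ⟨i j, rfl⟩⟩
  refine ⟨List.ofFn g, ?_, List.length_ofFn, i₀, ⟨List.nodup_ofFn.2 hinj, ?_⟩, ?_, ?_, ?_⟩
  · intro v
    rw [List.mem_ofFn]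
    constructor
    · rintro ⟨m, rfl⟩
      exact ⟨m.modNat, hgB m _ rfl⟩
    · rintro ⟨j, hv⟩
      obtain ⟨r, hr⟩ := (e j).surjective ⟨v, hv⟩
      refine ⟨finProdFinEquiv (r, j), ?_⟩
      have h1 : (finProdFinEquiv (r, j)).modNat = j ∧ (finProdFinEquiv (r, j)).divNat = r := by
        have h2 := (finProdFinEquiv (m := s) (n := k)).symm_apply_apply (r, j)
        have h3 : ((finProdFinEquiv (r, j)).divNat, (finProdFinEquiv (r, j)).modNat) = (r, j) := h2
        exact ⟨(Prod.ext_iff.1 h3).2, (Prod.ext_iff.1 h3).1⟩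
      change (e (finProdFinEquiv (r, j)).modNat (finProdFinEquiv (r, j)).divNat : V) = v
      rw [h1.1, h1.2, hr]
  · intro l hl hlk
    obtain ⟨m, hm, hlm⟩ := infix_win hl
    rw [hlk, List.length_ofFn] at hm
    rw [hlk, win g hm] at hlm
    obtain ⟨x, hx, hxi⟩ := hwin m hm
    obtain ⟨h1, h2, h3, -, -⟩ := hi x hx
    have h4 : (List.ofFn x).toFinset ⊆ l.toFinset := by
      intro v hv
      rw [List.mem_toFinset, List.mem_ofFn] at hv
      obtain ⟨j, rfl⟩ := hv
      obtain ⟨i, hi2⟩ := hxi j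
      rw [List.mem_toFinset, hlm, List.mem_ofFn]
      exact ⟨i, hi2.symm⟩
    have h5 : (List.ofFn x).toFinset = l.toFinset := by
      apply Finset.eq_of_subset_of_card_le h4
      rw [List.toFinset_card_of_nodup h1, h2]
      exact (List.toFinset_card_le l).trans hlk.le
    rw [← h5]
    exact h3
  · rw [List.length_ofFn]
    omega
  · have h0 : 0 + k ≤ s * k := by omega
    let x : Fin k → V := fun j => g ⟨0 + j, by have := j.2; omega⟩
    have hx : ∀ j, x j ∈ B j := by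
      intro j
      apply hgB
      change (0 + (j : ℕ)) % k = j
      rw [zero_add, Nat.mod_eq_of_lt j.2]
    obtain ⟨-, -, -, h1, -⟩ := hi x hx
    have h2 : List.ofFn x = ((List.ofFn g).drop 0).take k := (win g h0).symm
    rw [h2, List.drop_zero, List.take_take] at h1
    have h3 : min (k - 1) k = k - 1 := by omega
    rw [h3] at h1
    exact h1
  · have h0 : (s * k - k) + k ≤ s * k := by omega
    let x : Fin k → V := fun j => g ⟨(s * k - k) + j, by have := j.2; omega⟩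
    have hx : ∀ j, x j ∈ B j := by
      intro j
      apply hgB
      change ((s * k - k) + (j : ℕ)) % k = j
      have h1 : s * k - k = k * (s - 1) := by
        rw [Nat.mul_sub, mul_one, mul_comm]
      rw [h1, Nat.mul_add_mod, Nat.mod_eq_of_lt j.2]
    obtain ⟨-, -, -, -, h1⟩ := hi x hx
    have h2 : List.ofFn x = ((List.ofFn g).drop (s * k - k)).take k := (win g h0).symm
    rw [h2] at h1
    have h3 : ((List.ofFn g).drop (s * k - k)).take k = (List.ofFn g).drop (s * k - k) := by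
      apply List.take_of_length_le
      rw [List.length_drop, List.length_ofFn]
      omega
    rw [h3, List.drop_drop] at h1
    have h4 : (List.ofFn g).length - (k - 1) = s * k - k + 1 := by
      rw [List.length_ofFn]
      omega
    rw [h4]
    exact h1

/-- from a tiling to segments -/
theorem tiling_segs {q : ℕ} {H : Finset (Finset V)} {k : ℕ} {T : Fin q → Set (List V)} {s : ℕ}
    (hk : 3 ≤ k) (hs : 0 < s) {W : Finset V} {𝓑 : List (Fin k → Finset V)}
    (h𝓑 : Tiling H k T s W 𝓑) :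
    ∃ ps : List (List V), ps.flatten.Nodup ∧ (∀ v ∈ ps.flatten, v ∉ W) ∧
      (∀ p ∈ ps, p.length = s * k ∧ ∃ i, Seg H k (T i) (T i) p) ∧
      ps.flatten.length = k * s * 𝓑.length := by
  classical
  obtain ⟨h1, h2, h3⟩ := h𝓑
  have hex : ∀ B : Fin k → Finset V, ∃ p : List V, Block H k T s B →
      (∀ v, v ∈ p ↔ ∃ j, v ∈ B j) ∧ p.length = s * k ∧ ∃ i, Seg H k (T i) (T i) p := by
    intro B
    by_cases hB : Block H k T s B
    · obtain ⟨p, hp⟩ := block_seg hk hs hB
      exact ⟨p, fun _ => hp⟩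
    · exact ⟨[], fun h => absurd h hB⟩
  choose f hf using hex
  refine ⟨𝓑.map f, ?_, ?_, ?_, ?_⟩
  · rw [List.nodup_flatten]
    constructor
    · intro p hp
      obtain ⟨B, hB, rfl⟩ := List.mem_map.1 hp
      obtain ⟨i, hi⟩ := (hf B (h1 B hB)).2.2
      exact hi.1.1
    · rw [List.pairwise_map]
      refine h3.imp_of_mem ?_
      intro B C hB hC hBC v hv hv'
      obtain ⟨i, hi⟩ := ((hf B (h1 B hB)).1 v).1 hv
      obtain ⟨j, hj⟩ := ((hf C (h1 C hC)).1 v).1 hv'
      exact Finset.disjoint_left.1 (hBC i j) hi hj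
  · intro v hv
    obtain ⟨p, hp, hvp⟩ := List.mem_flatten.1 hv
    obtain ⟨B, hB, rfl⟩ := List.mem_map.1 hp
    obtain ⟨i, hi⟩ := ((hf B (h1 B hB)).1 v).1 hvp
    exact Finset.disjoint_left.1 (h2 B hB i) hi
  · intro p hp
    obtain ⟨B, hB, rfl⟩ := List.mem_map.1 hp
    exact (hf B (h1 B hB)).2
  · clear h2 h3
    induction 𝓑 with
    | nil => simp
    | cons B 𝓑 ih =>
      rw [List.map_cons, List.flatten_cons, List.length_append,
        ih (fun C hC => h1 C (List.mem_cons_of_mem _ hC)),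
        (hf B (h1 B List.mem_cons_self)).2.1, List.length_cons]
      ring

theorem cov (cob : CobStmt) : CovStmt := by
  intro k q L ξ hk hq hξ
  obtain ⟨ℓ, δ, γ, hℓ, hδ, hγ, hcob⟩ := cob k q ξ hk hq hξ
  choose n₁ hn₁ using fun (s : ℕ) (hs : 0 < s) => hcob s hs
  obtain ⟨s₀, hs₀⟩ : ∃ s₀, s₀ = L + 1 := ⟨_, rfl⟩
  have hs₀' : 0 < s₀ := by omega
  have hsp : ∀ r, 0 < ℓ ^ r * s₀ := fun r => Nat.mul_pos (pow_pos hℓ r) hs₀'
  obtain ⟨R, hR⟩ : ∃ R : ℕ, 1 < R * δ := by
    obtain ⟨R, hR⟩ := exists_nat_gt (1 / δ)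
    refine ⟨R, ?_⟩
    rwa [div_lt_iff₀ hδ] at hR
  refine ⟨γ, 1 + ∑ r ∈ Finset.range R, n₁ (ℓ ^ r * s₀) (hsp r), hγ, ?_⟩
  intro V _ _ H T hn hH hT hP3 W hW
  have hn0 : 0 < Fintype.card V := by omega
  have hnr : ∀ r < R, n₁ (ℓ ^ r * s₀) (hsp r) ≤ Fintype.card V := by
    intro r hr
    have h1 : n₁ (ℓ ^ r * s₀) (hsp r) ≤
        ∑ r ∈ Finset.range R, n₁ (ℓ ^ r * s₀) (hsp r) :=
      Finset.single_le_sum (f := fun r => n₁ (ℓ ^ r * s₀) (hsp r)) (fun _ _ => Nat.zero_le _)
        (Finset.mem_range.2 hr)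
    omega
  -- the good tiling
  have hgood : ∃ r, ∃ 𝓑, Tiling H k T (ℓ ^ r * s₀) W 𝓑 ∧
      (Fintype.card V : ℝ) < (k * (ℓ ^ r * s₀ : ℕ) * 𝓑.length : ℝ) + W.card +
        ξ * Fintype.card V := by
    by_contra hcon
    have hcon' : ∀ r 𝓑, Tiling H k T (ℓ ^ r * s₀) W 𝓑 →
        (k * (ℓ ^ r * s₀ : ℕ) * 𝓑.length : ℝ) + W.card + ξ * Fintype.card V ≤
          Fintype.card V := by
      intro r 𝓑 h
      by_contra h'
      exact hcon ⟨r, 𝓑, h, not_le.1 h'⟩
    have key : ∀ r ≤ R, ∃ 𝓑, Tiling H k T (ℓ ^ (R - r) * s₀) W 𝓑 ∧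
        (r * δ) * Fintype.card V ≤ (k * (ℓ ^ (R - r) * s₀ : ℕ) * 𝓑.length : ℝ) := by
      intro r
      induction r with
      | zero =>
        intro _
        exact ⟨[], ⟨by simp, by simp, List.Pairwise.nil⟩, by simp⟩
      | succ r ih =>
        intro hr
        obtain ⟨𝓑, h𝓑, hx⟩ := ih (by omega)
        have e1 : ℓ ^ (R - r) * s₀ = ℓ * (ℓ ^ (R - (r + 1)) * s₀) := by
          have : R - r = (R - (r + 1)) + 1 := by omega
          rw [this, pow_succ]
          ring
        have h1 := hn₁ _ (hsp (R - (r + 1))) V H T (hnr _ (by omega)) hH hT hP3 W hW (r * δ)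
          ⟨𝓑, by rw [← e1]; exact h𝓑, by
            rw [e1] at hx
            push_cast at hx ⊢
            exact hx⟩ (by
            intro 𝓒 h𝓒
            rw [← e1] at h𝓒
            have h2 := hcon' _ 𝓒 h𝓒
            rw [e1] at h2
            push_cast at h2 ⊢
            exact h2)
        obtain ⟨𝓒, h𝓒, hy⟩ := h1
        refine ⟨𝓒, h𝓒, ?_⟩
        push_cast at hy ⊢
        have e2 : ((r : ℝ) + 1) * δ = r * δ + δ := by ring
        rw [e2]
        exact hy
    obtain ⟨𝓑, h𝓑, hx⟩ := key R le_rfl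
    obtain ⟨ps, hps, -, -, hlen⟩ := tiling_segs hk (hsp (R - R)) h𝓑
    have h1 : ps.flatten.length ≤ Fintype.card V := hps.length_le_card
    rw [hlen] at h1
    have h2 : ((k * (ℓ ^ (R - R) * s₀) * 𝓑.length : ℕ) : ℝ) ≤ Fintype.card V := by
      exact_mod_cast h1
    have h3 : (0 : ℝ) < Fintype.card V := by exact_mod_cast hn0
    push_cast at h2 hx
    nlinarith
  obtain ⟨r, 𝓑, h𝓑, hlt⟩ := hgood
  obtain ⟨ps, hps, hpW, hseg, hlen⟩ := tiling_segs hk (hsp r) h𝓑
  refine ⟨ps, hps, hpW, ?_, ?_⟩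
  · intro p hp
    obtain ⟨h1, h2⟩ := hseg p hp
    refine ⟨?_, h2⟩
    rw [h1]
    have h3 : s₀ ≤ ℓ ^ r * s₀ := Nat.le_mul_of_pos_left _ (pow_pos hℓ r)
    have h4 : ℓ ^ r * s₀ ≤ ℓ ^ r * s₀ * k := Nat.le_mul_of_pos_right _ (by omega)
    omega
  · rw [hlen]
    push_cast at hlt ⊢
    linarith

end Pool.Agent.KK.H6
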